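import Mathlib
import Pool.Agent.N704.VK.Asym
import Pool.Agent.N704.VK.Exist

/-!
# `v_κ / κ` is not an increasing function of `κ`

For every real `κ ≥ 1` the sieve function `σ_κ` exists and is unique, the integral defining
`η_κ(u)` converges for `u > 1`, and `η_κ(u) = 1` has exactly one root `v_κ > 1`.
For every sufficiently large `κ₁` and all `κ₂` large in terms of `κ₁` one has
`v_{κ₂} / κ₂ < v_{κ₁} / κ₁`. In particular `v_κ / κ` is not increasing on `κ ≥ 1`.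

The reason is that `v_κ / κ` tends to `c = (2 / (e log 2)) exp (∫_0^{log 2} (e^x - 1)/x dx) = 2.445...`
while `v_κ > c κ` for all large `κ`.
-/

set_option autoImplicit false

namespace Pool.Agent.Results.MP_b43138_nt.NotMonotone

open MeasureTheory Set Filter Topology Pool.Agent.N704.VK

theorem result :
    ∃ (σ : ℝ → ℝ → ℝ) (v : ℝ → ℝ),
      (∀ κ : ℝ, 1 ≤ κ →
        IsSigma κ (σ κ) ∧
        (∀ τ : ℝ → ℝ, IsSigma κ τ → ∀ u : ℝ, 0 < u → τ u = σ κ u) ∧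
        (∀ u : ℝ, 1 < u →
          IntegrableOn (fun t : ℝ => t ^ (κ - 1) * (1 / σ κ (t - 1) - 1)) (Ioi u)) ∧
        1 < v κ ∧ eta κ (σ κ) (v κ) = 1 ∧
        (∀ u : ℝ, 1 < u → eta κ (σ κ) u = 1 → u = v κ)) ∧
      ∃ K : ℝ, 1 ≤ K ∧ ∀ κ₁ : ℝ, K ≤ κ₁ → ∃ K₂ : ℝ, κ₁ < K₂ ∧
        ∀ κ₂ : ℝ, K₂ ≤ κ₂ → v κ₂ / κ₂ < v κ₁ / κ₁ := by
  classical
  have hsol : ∀ κ : ℝ, 1 ≤ κ → Sol κ (AA κ) (sol κ (AA κ)) := fun κ hκ =>
    sol_isSol hκ (AA_pos hκ)
  have hroot : ∀ κ : ℝ, ∃ v : ℝ, 1 ≤ κ → 1 < v ∧ eta κ (sol κ (AA κ)) v = 1 ∧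
      ∀ u : ℝ, 1 < u → eta κ (sol κ (AA κ)) u = 1 → u = v := by
    intro κ
    by_cases hκ : 1 ≤ κ
    · obtain ⟨v, hv⟩ := (hsol κ hκ).root
      exact ⟨v, fun _ => hv⟩
    · exact ⟨0, fun h => absurd h hκ⟩
  choose v hv using hroot
  refine ⟨fun κ => sol κ (AA κ), v, ?_, ?_⟩
  · intro κ hκ
    have hs := hsol κ hκ
    refine ⟨hs.isSigma, ?_, fun u hu => hs.eta_int hu, (hv κ hκ).1, (hv κ hκ).2.1, (hv κ hκ).2.2⟩
    intro τ hτ u hu
    have h1 := sol_unique (hτ.sol hκ) hs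
    have h2 := congrFun h1 u
    simp only [if_pos hu] at h2
    exact h2
  · obtain ⟨K, hK⟩ := eventually_atTop.1 eta_gt_one
    refine ⟨max K 1, le_max_right _ _, fun κ₁ hκ₁ => ?_⟩
    have h1 : 1 ≤ κ₁ := (le_max_right _ _).trans hκ₁
    have h10 : 0 < κ₁ := by linarith
    have hs1 := hsol κ₁ h1
    obtain ⟨hv1, hv2, -⟩ := hv κ₁ h1
    have hgt := hK κ₁ ((le_max_left _ _).trans hκ₁) _ hs1
    have hcc := cc_gt
    have hc1 : 1 < cc * κ₁ := by nlinarith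
    -- the root lies beyond `c κ₁`
    have hvc : cc * κ₁ < v κ₁ := by
      by_contra hc
      push Not at hc
      have := hs1.eta_anti.antitoneOn (show v κ₁ ∈ Ioi 1 from hv1) (show cc * κ₁ ∈ Ioi 1 from hc1) hc
      linarith
    set ρ : ℝ := v κ₁ / (cc * κ₁) with hρ
    have hρ1 : 1 < ρ := by
      rw [hρ, lt_div_iff₀ (by linarith), one_mul]
      exact hvc
    obtain ⟨K₂, hK₂⟩ := eventually_atTop.1 (eta_lt_one hρ1)
    refine ⟨max K₂ (κ₁ + 1), lt_of_lt_of_le (by linarith) (le_max_right _ _), fun κ₂ hκ₂ => ?_⟩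
    have h2 : 1 ≤ κ₂ := by
      have := (le_max_right K₂ (κ₁ + 1)).trans hκ₂
      linarith
    have h20 : 0 < κ₂ := by linarith
    have hs2 := hsol κ₂ h2
    obtain ⟨hw1, hw2, -⟩ := hv κ₂ h2
    have hlt := hK₂ κ₂ ((le_max_left _ _).trans hκ₂) _ hs2
    have hu1 : 1 < ρ * cc * κ₂ := by
      have : 2 < ρ * cc := by nlinarith
      nlinarith
    have hvlt : v κ₂ < ρ * cc * κ₂ := by
      by_contra hc
      push Not at hc
      have := hs2.eta_anti.antitoneOn (show ρ * cc * κ₂ ∈ Ioi 1 from hu1)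
        (show v κ₂ ∈ Ioi 1 from hw1) hc
      linarith
    have e : ρ * cc = v κ₁ / κ₁ := by
      rw [hρ]
      have : cc ≠ 0 := by linarith
      field_simp
    rw [e] at hvlt
    rw [div_lt_iff₀ h20]
    exact hvlt

end Pool.Agent.Results.MP_b43138_nt.NotMonotone
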